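import Pool.Agent.helper616_TQ.Main

/-!
# Almost all real multiples of the primes have level of distribution one

For almost every `α > 0` the integer parts `⌊α p⌋`, `p ≤ N` prime, are equidistributed in residue classes to moduli up to
`N ^ (1 - ε)`, with a power of `N` saved: the sum over `q ≤ N ^ (1 - ε)` of the maximum over all `M ≤ N` and over `N ^ η`
arbitrarily prescribed classes modulo `q` of the error terms is `O(N ^ (1 - η))`. The primes may be replaced by any
weight bounded by a power of the logarithm.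

Proof: Plancherel's formula in the variable `log α`; the mean value theorem for Dirichlet polynomials for the sum with
the weights, and van der Corput's method (together with Euler-Maclaurin summation for the low frequencies) for the
Mellin transform of a residue class.
-/

set_option autoImplicit false

open Filter Topology MeasureTheory

namespace Pool.Agent.Results.MP_00e23e_nt.AlmostAllRealMultiples

/-- The sum of `w n` over the `n ≤ M` such that `⌊α n⌋` is congruent to `r` modulo `q`, minus the `q`-th part of the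
sum over all `n ≤ M`. -/
noncomputable def error (w : ℕ → ℝ) (α : ℝ) (q r M : ℕ) : ℝ :=
  ∑ n ∈ (Finset.Icc 1 M).filter (fun n : ℕ => ⌊α * n⌋₊ ≡ r [MOD q]), w n - (∑ n ∈ Finset.Icc 1 M, w n) / q

/-- For every `ε ∈ (0, 1)` there is `η > 0` such that for all weights `w` bounded by a power of the logarithm (for
example `w n = log n` at the primes, `0` elsewhere) and all sequences `b q 0, b q 1, …` of residues, for almost every
`α > 0`, the sum over `q ≤ N ^ (1 - ε)` of the maximum of `|error w α q (b q i) M|` over `M ≤ N` and `i ≤ N ^ η` is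
`O(N ^ (1 - η))`. -/
theorem result (ε : ℝ) (hε : 0 < ε) (hε1 : ε < 1) :
    ∃ η : ℝ, 0 < η ∧ ∀ w : ℕ → ℝ, (∃ (C : ℝ) (K : ℕ), ∀ n : ℕ, |w n| ≤ C * (Real.log (n + 2)) ^ K) →
      ∀ b : ℕ → ℕ → ℕ, ∀ᵐ α : ℝ, 0 < α → ∃ C : ℝ, ∀ N : ℕ, 1 ≤ N →
        ∀ M i : ℕ → ℕ, (∀ q, M q ≤ N) → (∀ q, (i q : ℝ) ≤ (N : ℝ) ^ η) →
          ∑ q ∈ Finset.Icc 1 ⌊(N : ℝ) ^ (1 - ε)⌋₊, |error w α q (b q (i q)) (M q)| ≤ C * (N : ℝ) ^ (1 - η) := by
  obtain ⟨η, hη, h⟩ := Pool.Agent.helper616_TQ.level ε hε hε1
  refine ⟨η, hη, fun w hw b => ?_⟩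
  filter_upwards [h w hw b] with α hα h0
  obtain ⟨C, hC⟩ := hα h0
  refine ⟨C, fun N hN M i hM hi => ?_⟩
  refine le_trans (le_of_eq ?_) (hC N hN M i hM hi)
  refine Finset.sum_congr rfl fun q _ => ?_
  congr 1
  unfold error Pool.Agent.helper616_TQ.gq
  rw [Finset.sum_filter, Finset.sum_div, ← Finset.sum_sub_distrib]
  refine Finset.sum_congr rfl fun n _ => ?_
  have e : (⌊α * n⌋₊ ≡ b q (i q) [MOD q]) ↔ ⌊α * (n : ℝ)⌋₊ % q = b q (i q) % q := Iff.rfl
  by_cases h : ⌊α * (n : ℝ)⌋₊ % q = b q (i q) % q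
  · rw [if_pos (e.2 h), if_pos h]
    ring
  · rw [if_neg (fun h' => h (e.1 h')), if_neg h]
    ring

end Pool.Agent.Results.MP_00e23e_nt.AlmostAllRealMultiples
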