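import Pool.Agent.helper24_UT.Ch13
import Pool.Agent.helper24_UT.Pf

/-!
# Level of distribution `N exp (- K (log log N) ^ 2)` for almost all residues of thin families in windows of length `N ^ (1/3 + ε)`

Let `s 1, ..., s x` be integers in an interval `(c, c + H]`, `|c| ≤ B N`, `N ^ (1 / 3 + ε) ≤ H ≤ N`, whose additive energy of
some order `p` is, up to a power of `log N`, the smallest possible one `x ^ (2 p) / H`. Then the primes have the level of
distribution `N exp (- K (log log N) ^ 2)` for almost all the residues `a = s m`: for arbitrary weights `|λ(q)| ≤ (log N) ^ T` and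
all but `x / (log N) ^ U` of the `m`, the sum of `λ(q) (ψ(y; q, a) - y / φ(q))` over `q ≤ Q`, `(q, a) = 1`, is at most
`N / (log N) ^ U` in absolute value, for all `y ≤ B N`. This applies to all residues of a short interval (`p = 1`), and to the
residues `c + f(m)`, `m ≤ x`, `N ^ (1/3 + ε) ≤ x ^ deg f ≤ N`, for every polynomial `f`.

The case `H = N` (up to powers of the logarithm) is a starting file (`FamiliesOfResidues`); here the family lies in a short window.
Proof: the correlations of the primes minus their sieve model along the family are bounded by the additive energy and by the mean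
square of short exponential sums over primes, `Pool.Agent.helper24_UT.Ch.t_MKT` (method of Mikawa; windows `H ≥ N ^ (1 / 3 + ε)`);
the energy of polynomial values, and the sieve with arbitrary weights on the moduli (`Pool.Agent.W93`), are from the starting files.
-/

set_option autoImplicit false

namespace Pool.Agent.Results.MP_00e23e_nt.ShortThinFamilies

open Finset Polynomial

/-- The additive energy of order `p` of the family `s 1, ..., s x`: the number of the solutions of
`s (v 1) + ... + s (v p) = s (w 1) + ... + s (w p)` with all `v i`, `w i` in `{1, ..., x}`. -/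
def energy (p x : ℕ) (s : ℕ → ℤ) : ℕ :=
  (((Fintype.piFinset fun _ : Fin p => Icc 1 x) ×ˢ (Fintype.piFinset fun _ : Fin p => Icc 1 x)).filter
    (fun q => ∑ i, s (q.1 i) = ∑ i, s (q.2 i))).card

open Classical in
/-- The number of the `m` in `{1, ..., x}` with the property `E`. -/
noncomputable def num (x : ℕ) (E : ℕ → Prop) : ℝ := (((Icc 1 x).filter E).card : ℝ)

/-- `ψ(y; q, a)`: the sum of `Λ(n)` over the `n ≤ y` with `n ≡ a (mod q)`. -/
noncomputable def psi (y q a : ℕ) : ℝ :=
  ∑ n ∈ (Icc 1 y).filter (fun n => n ≡ a [MOD q]), ArithmeticFunction.vonMangoldt n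

/-- The sum of `λ(q) (ψ(y; q, a) - y / φ(q))` over the `q ≤ Q` coprime to `a`. -/
noncomputable def weighted (lam : ℕ → ℝ) (Q y a : ℕ) : ℝ :=
  ∑ q ∈ (Icc 1 Q).filter (fun q => a.Coprime q), lam q * (psi y q a - (y : ℝ) / Nat.totient q)

/-- The residue `a` is exceptional: it is positive and the sum with the weights `λ(q)` is larger than `N / (log N) ^ U` for
some `y ≤ B N`. -/
def Bad (B U N Q : ℕ) (lam : ℕ → ℝ) (a : ℤ) : Prop :=
  0 < a ∧ ∃ y : ℕ, y ≤ B * N ∧ (N : ℝ) / Real.log N ^ U < |weighted lam Q y a.toNat|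

lemma num_mono {x : ℕ} {E F : ℕ → Prop} (h : ∀ m ∈ Icc 1 x, E m → F m) : num x E ≤ num x F := by
  classical
  unfold num
  apply Nat.cast_le.2
  apply card_le_card
  intro m hm
  rw [mem_filter] at hm ⊢
  exact ⟨hm.1, h m hm.1 hm.2⟩

lemma general (ε : ℝ) (hε : 0 < ε) (B C T U p : ℕ) (hp : 1 ≤ p) : ∃ K N₀ : ℕ, ∀ N : ℕ, N₀ ≤ N → ∀ H : ℕ,
    (N : ℝ) ^ (1 / 3 + ε) ≤ H → H ≤ N → ∀ (c : ℤ) (x : ℕ) (s : ℕ → ℤ), |c| ≤ B * N →
    (∀ m ∈ Icc 1 x, c < s m ∧ s m ≤ c + H) → (energy p x s : ℝ) * H ≤ Real.log N ^ C * (x : ℝ) ^ (2 * p) →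
    ∀ lam : ℕ → ℝ, (∀ q, |lam q| ≤ Real.log N ^ T) →
    ∀ Q : ℕ, (Q : ℝ) ≤ N * Real.exp (-(K * Real.log (Real.log N) ^ 2)) →
      num x (fun m => Bad B U N Q lam (s m)) ≤ x / Real.log N ^ U := by
  classical
  obtain ⟨e, he⟩ := exists_nat_gt (1 / ε)
  have he0 : (0 : ℝ) < e := lt_trans (by positivity) he
  have he1 : 1 ≤ e := by exact_mod_cast he0
  have hle : 1 / (e : ℝ) ≤ ε := by
    rw [div_le_iff₀ he0]
    rw [div_lt_iff₀ hε] at he
    linarith
  obtain ⟨K, N₀, h⟩ := Pool.Agent.helper24_UT.Ch.t_LV p e B C T U hp he1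
  refine ⟨K, N₀ + 1, fun N hN H hH hHN c x s hc hs hE lam hlam Q hQ => ?_⟩
  have hN1 : (1 : ℝ) ≤ N := by exact_mod_cast (by omega : 1 ≤ N)
  have hH' : (N : ℝ) ^ (1 / 3 + 1 / e : ℝ) ≤ H :=
    (Real.rpow_le_rpow_of_exponent_le hN1 (by linarith)).trans hH
  have h1 := h N (by omega) H hH' hHN c x s hc ⟨hs, hE⟩ lam hlam Q hQ
  refine le_trans (le_of_eq ?_) h1
  unfold num Bad weighted psi
  congr!

/-- Let `ε > 0` and `B`, `C`, `T`, `U` be fixed.

* Let `p ≥ 1`. There is a `K` such that for all large `N` the following holds. Let `N ^ (1 / 3 + ε) ≤ H ≤ N`, let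
  `s 1, ..., s x` be an arbitrary family of integers in the interval `(c, c + H]`, `|c| ≤ B N`, with an additive energy of
  order `p` of at most `log ^ C N` times the minimal possible size `x ^ (2 p) / H`, and let the weights `|λ(q)| ≤ log ^ T N` be
  arbitrary. Then, for all the `m ≤ x` with at most `x / log ^ U N` exceptions: if `a = s m` is positive, the sum of
  `λ(q) (ψ(y; q, a) - y / φ(q))` over the `q ≤ Q` coprime to `a` has absolute value at most `N / log ^ U N` for all `y ≤ B N`.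
  Here `Q ≤ N exp (- K (log log N) ^ 2)` is arbitrary.
* In particular this holds for all residues of the interval (`s m = c + m`, `m ≤ H`).
* It holds for the residues `a = c + f m`, `m ≤ x`, where `f` is a fixed nonconstant polynomial with integer coefficients of
  degree `d`, `N ^ (1 / 3 + ε) ≤ x ^ d ≤ N` and `|c| ≤ B N`. -/
theorem result (ε : ℝ) (hε : 0 < ε) (B C T U : ℕ) :
    (∀ p : ℕ, 1 ≤ p → ∃ K N₀ : ℕ, ∀ N : ℕ, N₀ ≤ N → ∀ H : ℕ, (N : ℝ) ^ (1 / 3 + ε) ≤ H → H ≤ N →
      ∀ (c : ℤ) (x : ℕ) (s : ℕ → ℤ), |c| ≤ B * N → (∀ m ∈ Icc 1 x, c < s m ∧ s m ≤ c + H) →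
      (energy p x s : ℝ) * H ≤ Real.log N ^ C * (x : ℝ) ^ (2 * p) →
      ∀ lam : ℕ → ℝ, (∀ q, |lam q| ≤ Real.log N ^ T) →
      ∀ Q : ℕ, (Q : ℝ) ≤ N * Real.exp (-(K * Real.log (Real.log N) ^ 2)) →
        num x (fun m => Bad B U N Q lam (s m)) ≤ x / Real.log N ^ U) ∧
    (∃ K N₀ : ℕ, ∀ N : ℕ, N₀ ≤ N → ∀ H : ℕ, (N : ℝ) ^ (1 / 3 + ε) ≤ H → H ≤ N → ∀ c : ℤ, |c| ≤ B * N →
      ∀ lam : ℕ → ℝ, (∀ q, |lam q| ≤ Real.log N ^ T) →
      ∀ Q : ℕ, (Q : ℝ) ≤ N * Real.exp (-(K * Real.log (Real.log N) ^ 2)) →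
        num H (fun m => Bad B U N Q lam (c + m)) ≤ H / Real.log N ^ U) ∧
    (∀ f : ℤ[X], 1 ≤ f.natDegree → ∃ K N₀ : ℕ, ∀ N : ℕ, N₀ ≤ N → ∀ x : ℕ,
      (N : ℝ) ^ (1 / 3 + ε) ≤ (x : ℝ) ^ f.natDegree → x ^ f.natDegree ≤ N → ∀ c : ℤ, |c| ≤ B * N →
      ∀ lam : ℕ → ℝ, (∀ q, |lam q| ≤ Real.log N ^ T) →
      ∀ Q : ℕ, (Q : ℝ) ≤ N * Real.exp (-(K * Real.log (Real.log N) ^ 2)) →
        num x (fun m => Bad B U N Q lam (c + f.eval (m : ℤ))) ≤ x / Real.log N ^ U) := by
  classical
  refine ⟨fun p hp => general ε hε B C T U p hp, ?_, fun f hd => ?_⟩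
  · obtain ⟨K, N₀, h⟩ := general ε hε B 1 T U 1 le_rfl
    have hlog : Filter.Tendsto (fun N : ℕ => Real.log (N : ℝ)) Filter.atTop Filter.atTop :=
      Real.tendsto_log_atTop.comp tendsto_natCast_atTop_atTop
    obtain ⟨N₁, hN₁⟩ := Filter.eventually_atTop.1 (hlog.eventually_ge_atTop 1)
    refine ⟨K, N₀ + N₁, fun N hN H hH hHN c hc lam hlam Q hQ => ?_⟩
    refine h N (by omega) H hH hHN c H (fun m => c + m) hc (fun m hm => ?_) ?_ lam hlam Q hQ
    · rw [mem_Icc] at hm
      omega
    · have he : energy 1 H (fun m => c + (m : ℤ)) ≤ H := by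
        unfold energy
        have hinj : Set.InjOn (fun q : (Fin 1 → ℕ) × (Fin 1 → ℕ) => q.1 0)
            (((Fintype.piFinset fun _ : Fin 1 => Icc 1 H) ×ˢ (Fintype.piFinset fun _ : Fin 1 => Icc 1 H)).filter
              (fun q => ∑ i, (c + (q.1 i : ℤ)) = ∑ i, (c + (q.2 i : ℤ)))) := by
          intro a ha b hb hab
          rw [mem_coe, mem_filter] at ha hb
          have h1 := ha.2
          have h2 := hb.2
          rw [Fin.sum_univ_one, Fin.sum_univ_one] at h1 h2
          simp only at hab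
          have e1 : a.1 = b.1 := by
            funext i
            rw [Subsingleton.elim i 0]
            exact hab
          have e2 : a.2 = b.2 := by
            funext i
            rw [Subsingleton.elim i 0]
            omega
          exact Prod.ext e1 e2
        calc _ ≤ (Icc 1 H).card := by
              apply card_le_card_of_injOn _ _ hinj
              intro a ha
              rw [mem_coe, mem_filter, mem_product, Fintype.mem_piFinset] at ha
              exact ha.1.1 0
          _ = H := by rw [Nat.card_Icc, Nat.add_sub_cancel]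
      have hl := hN₁ N (by omega)
      have he' : (energy 1 H (fun m => c + (m : ℤ)) : ℝ) ≤ H := by exact_mod_cast he
      have hH0 : (0 : ℝ) ≤ H := Nat.cast_nonneg _
      rw [pow_one]
      calc (energy 1 H (fun m => c + (m : ℤ)) : ℝ) * H ≤ H * H := mul_le_mul_of_nonneg_right he' hH0
        _ = 1 * (H : ℝ) ^ (2 * 1) := by ring
        _ ≤ _ := mul_le_mul_of_nonneg_right hl (by positivity)
  · obtain ⟨p, D, N₁, hp, hD, hfam⟩ := Pool.Agent.helper24_UT.Pf.poly_fam f hd
    obtain ⟨K, N₂, h⟩ := general (ε / 2) (by positivity) (B + D) 1 T (U + 1) p hp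
    obtain ⟨N₃, hsc⟩ := Pool.Agent.helper24_UT.Pf.scale (2 * D) (by omega) ε hε K
    refine ⟨4 * K, max (max N₁ N₂) N₃, fun N hN x hx1 hx2 c hc lam hlam Q hQ => ?_⟩
    obtain ⟨g1, g2, g3, g4, g5, g6, g7⟩ := hsc N ((le_max_right _ _).trans hN)
    have hNN : N ≤ 2 * D * N := Nat.le_mul_of_pos_left N (by omega)
    have hN0 : (0 : ℝ) < N := by exact_mod_cast (by omega : 0 < N)
    have hx : 1 ≤ x := by
      by_contra hcon
      have : x = 0 := by omega
      subst this
      rw [Nat.cast_zero, zero_pow (by omega)] at hx1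
      have : (0 : ℝ) < (N : ℝ) ^ (1 / 3 + ε) := by positivity
      linarith
    have hxd : (0 : ℝ) < (x : ℝ) ^ f.natDegree := by
      have : (0 : ℝ) < x := by exact_mod_cast hx
      positivity
    have hD' : (1 : ℝ) ≤ D := by exact_mod_cast hD
    have hF := hfam (2 * D * N) (((le_max_left _ _).trans ((le_max_left _ _).trans hN)).trans hNN) x hx c
    have key := h (2 * D * N) (((le_max_right _ _).trans ((le_max_left _ _).trans hN)).trans hNN)
      (2 * D * x ^ f.natDegree) (by
        refine g6.trans (hx1.trans ?_)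
        push_cast
        nlinarith) (Nat.mul_le_mul_left _ hx2) (c - D * x ^ f.natDegree) x (fun m => c + f.eval (m : ℤ)) (by
        have h1 : (x : ℤ) ^ f.natDegree ≤ N := by exact_mod_cast hx2
        have h2 := abs_le.1 hc
        have h3 : (0 : ℤ) ≤ (x : ℤ) ^ f.natDegree := by positivity
        have h4 : (1 : ℤ) ≤ D := by exact_mod_cast hD
        have h5 : (0 : ℤ) ≤ B := by positivity
        have h6 : (0 : ℤ) ≤ N := by positivity
        have h7 : (D : ℤ) * (x : ℤ) ^ f.natDegree ≤ D * N := mul_le_mul_of_nonneg_left h1 (by omega)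
        have h8 : ((B : ℤ) + D) * N ≤ ((B : ℤ) + D) * (2 * D * N) := by
          apply mul_le_mul_of_nonneg_left _ (by omega)
          nlinarith
        push_cast
        rw [abs_le]
        constructor
        · nlinarith [h2.1]
        · nlinarith [h2.2, mul_nonneg (by omega : (0 : ℤ) ≤ D) h3]) hF.1 hF.2 lam (fun q => (hlam q).trans (by
          apply pow_le_pow_left₀ (by linarith) g4)) Q (hQ.trans g7)
    refine le_trans (num_mono ?_) (key.trans ?_)
    · rintro m _ ⟨h5, y, hy, h6⟩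
      refine ⟨h5, y, hy.trans ?_, lt_of_le_of_lt ?_ h6⟩
      · calc B * N ≤ (B + D) * N := Nat.mul_le_mul_right _ (by omega)
          _ ≤ (B + D) * (2 * D * N) := Nat.mul_le_mul_left _ hNN
      · have hlp : (0 : ℝ) < Real.log ((2 * D * N : ℕ) : ℝ) := by linarith
        rw [div_le_div_iff₀ (by positivity) (by positivity)]
        have h7 : (((2 * D * N : ℕ) : ℝ)) = ((2 * D : ℕ) : ℝ) * N := by push_cast; ring
        calc (((2 * D * N : ℕ) : ℝ)) * Real.log N ^ U = N * (((2 * D : ℕ) : ℝ) * Real.log N ^ U) := by rw [h7]; ring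
          _ ≤ N * (Real.log N * Real.log N ^ U) := by
            apply mul_le_mul_of_nonneg_left _ hN0.le
            exact mul_le_mul_of_nonneg_right g3 (by positivity)
          _ = N * Real.log N ^ (U + 1) := by ring
          _ ≤ N * Real.log ((2 * D * N : ℕ) : ℝ) ^ (U + 1) := by
            apply mul_le_mul_of_nonneg_left _ hN0.le
            exact pow_le_pow_left₀ (by linarith) g4 _
    · apply div_le_div_of_nonneg_left (Nat.cast_nonneg _) (by positivity)
      calc Real.log N ^ U ≤ Real.log N ^ (U + 1) := pow_le_pow_right₀ g2 (by omega)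
        _ ≤ _ := pow_le_pow_left₀ (by linarith) g4 _

end Pool.Agent.Results.MP_00e23e_nt.ShortThinFamilies
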